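import Pool.Agent.H85.MV.NotSuperadditive

/-!
# The Thomas-Fermi interaction energy is not superadditive

For `k ≥ 2` nuclei at distinct points, the function `z ↦ e(z) - ∑ e^at(z_j)` (neutral Thomas-Fermi
molecular energy minus atomic energies) is never superadditive on `ℝ^k_+`.

Outline.  Put equal charges `t` on two of the nuclei and let `F(t)` be the value of `e - ẽ`.
Superadditivity would give `F(n t₀) ≥ n F(t₀)`.  Concavity in the potential gives
`F(t) ≥ t²/|R₁-R₂| + e^at(2t)`, and this is positive for small `t`.  On the other hand
`F(t) ≤ 2 + C t^{8/9}` for `t ≥ 1`:  a radial near-minimiser of the atomic problem has only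
`O(t^{4/9})` electrons outside a fixed ball (moving electrons from far away to a fixed shell would
lower the energy otherwise), they can be moved into the ball at the cost `O(t^{8/9})`, and two
neutral radial densities with disjoint supports do not interact (Newton).
The radial reduction uses positivity of the Coulomb form (Gaussian representation of `1/|x-y|`).
-/

open MeasureTheory Set Metric

open scoped ENNReal

namespace Pool.Agent.Results.MP_f156ce_mp.NotSuperadditive

open Pool.H85.MV.NotSuperadditive

/-- **Main result.** For every `k ≥ 2` and all distinct `R₁, …, R_k ∈ ℝ³` the function `e - ẽ` is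
not superadditive on `ℝ^k_+`. -/
theorem result (k : ℕ) (hk : 2 ≤ k) (R : Fin k → E3) (hR : Function.Injective R) :
    ∃ z w : Fin k → ℝ, (∀ i, 0 ≤ z i) ∧ (∀ i, 0 ≤ w i) ∧
      interaction R (z + w) < interaction R z + interaction R w :=
  Pool.H85.MV.NotSuperadditive.result k hk R hR

end Pool.Agent.Results.MP_f156ce_mp.NotSuperadditive
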